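import Mathlib

namespace Pool.Agent.Results.MP_1cad20_al.LeftDischinger

/-- The core argument inside a unital ring `S` with a two-sided ideal `J`. -/
theorem core {S : Type*} [Ring S] (J : Ideal S) (hJ : ∀ j ∈ J, ∀ s : S, j * s ∈ J)
    (H : ∀ a ∈ J, ∃ n : ℕ, 1 ≤ n ∧ ∀ r ∈ J, ∀ s ∈ J, ∃ t ∈ J, r * a ^ n * s = t * a ^ n)
    (a x : S) (ha : a ∈ J) (hx : x ∈ J) (hax : a = x * (a * a)) :
    ∃ y ∈ J, a = (a * a) * y := by
  -- `a = x ^ k * a ^ (k + 1)`
  have hpow : ∀ k : ℕ, a = x ^ k * a ^ (k + 1) := by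
    intro k
    induction k with
    | zero => simp
    | succ k ih =>
      calc a = x ^ k * a ^ (k + 1) := ih
        _ = x ^ k * (a ^ k * a) := by rw [pow_succ]
        _ = x ^ k * (a * a ^ k) := by rw [← pow_succ, pow_succ']
        _ = x ^ k * (x * (a * a) * a ^ k) := by rw [← hax]
        _ = x ^ (k + 1) * a ^ (k + 1 + 1) := by
          rw [pow_succ x k, pow_succ' a (k + 1), pow_succ' a k]
          simp only [mul_assoc]
  -- `J a` is closed under right multiplication by `J`
  have hI : ∀ r ∈ J, ∀ s ∈ J, ∃ t ∈ J, r * a * s = t * a := by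
    intro r hr s hs
    obtain ⟨n, hn, h⟩ := H a ha
    obtain ⟨k, rfl⟩ : ∃ k, n = k + 1 := ⟨n - 1, by omega⟩
    obtain ⟨t, ht, hts⟩ := h (r * x ^ k) (hJ r hr _) s hs
    refine ⟨t * a ^ k, hJ t ht _, ?_⟩
    calc r * a * s = r * (x ^ k * a ^ (k + 1)) * s := by rw [← hpow k]
      _ = (r * x ^ k) * a ^ (k + 1) * s := by simp only [mul_assoc]
      _ = t * a ^ (k + 1) := hts
      _ = t * a ^ k * a := by rw [pow_succ, mul_assoc]
  obtain ⟨e, he⟩ : ∃ e : S, e = x * a := ⟨_, rfl⟩
  have heJ : e ∈ J := by rw [he]; exact hJ x hx _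
  have hea : e * a = a := by rw [he, mul_assoc]; exact hax.symm
  have heka : ∀ k : ℕ, e ^ k * a = a := by
    intro k
    induction k with
    | zero => simp
    | succ k ih => rw [pow_succ, mul_assoc, hea, ih]
  -- `J a ⊆ J e ^ k`
  have hIe : ∀ k : ℕ, ∀ r ∈ J, ∃ t ∈ J, r * a = t * e ^ k := by
    intro k r hr
    rcases Nat.eq_zero_or_pos k with rfl | hk
    · exact ⟨r * a, hJ r hr _, by simp⟩
    obtain ⟨n, hn, h⟩ := H (e ^ k) (by
      obtain ⟨l, rfl⟩ : ∃ l, k = l + 1 := ⟨k - 1, by omega⟩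
      rw [pow_succ]
      exact J.mul_mem_left _ heJ)
    obtain ⟨t, ht, hta⟩ := h r hr a ha
    obtain ⟨l, rfl⟩ : ∃ l, n = l + 1 := ⟨n - 1, by omega⟩
    refine ⟨t * (e ^ k) ^ l, hJ t ht _, ?_⟩
    calc r * a = r * ((e ^ k) ^ (l + 1) * a) := by rw [← pow_mul, heka]
      _ = r * (e ^ k) ^ (l + 1) * a := by rw [mul_assoc]
      _ = t * (e ^ k) ^ (l + 1) := hta
      _ = t * (e ^ k) ^ l * e ^ k := by rw [pow_succ, mul_assoc]
  obtain ⟨b, hb⟩ : ∃ b : S, b = e - e * e := ⟨_, rfl⟩
  have hbJ : b ∈ J := by rw [hb]; exact J.sub_mem heJ (J.mul_mem_left _ heJ)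
  have hba : b * a = 0 := by rw [hb, sub_mul, mul_assoc, hea, hea, sub_self]
  obtain ⟨m, hm, hmH⟩ := H b hbJ
  obtain ⟨m', rfl⟩ : ∃ l, m = l + 1 := ⟨m - 1, by omega⟩
  have hbm : b ^ (m' + 1) = e ^ (m' + 1) * (1 - e) ^ (m' + 1) := by
    have hcomm : Commute e (1 - e) := (Commute.one_right e).sub_right (Commute.refl e)
    have : b = e * (1 - e) := by rw [hb]; noncomm_ring
    rw [this, hcomm.mul_pow]
  have hzero : e ^ (m' + 3) * (1 - e) ^ (m' + 1) = 0 := by
    obtain ⟨t, ht, htt⟩ := hmH e heJ x hx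
    have h1 : e * b ^ (m' + 1) * e = 0 := by
      calc e * b ^ (m' + 1) * e = e * b ^ (m' + 1) * x * a := by rw [he]; simp only [mul_assoc]
        _ = t * b ^ (m' + 1) * a := by rw [htt]
        _ = t * b ^ m' * (b * a) := by rw [pow_succ]; simp only [mul_assoc]
        _ = 0 := by rw [hba, mul_zero]
    have hcomm : Commute e (1 - e) := (Commute.one_right e).sub_right (Commute.refl e)
    have hc2 : Commute e ((1 - e) ^ (m' + 1)) := hcomm.pow_right _
    calc e ^ (m' + 3) * (1 - e) ^ (m' + 1)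
        = e * (e ^ (m' + 1) * (e * (1 - e) ^ (m' + 1))) := by
          rw [show m' + 3 = (m' + 1) + 1 + 1 from rfl, pow_succ' e (m' + 1 + 1),
            pow_succ e (m' + 1)]
          simp only [mul_assoc]
      _ = e * (e ^ (m' + 1) * ((1 - e) ^ (m' + 1) * e)) := by rw [hc2.eq]
      _ = e * b ^ (m' + 1) * e := by rw [hbm]; simp only [mul_assoc]
      _ = 0 := h1
  obtain ⟨f, hf⟩ : ∃ f : S, f = 1 - (1 - e) ^ (m' + 1) := ⟨_, rfl⟩
  -- `f = p * e`
  obtain ⟨p, hp⟩ : ∃ p : S, f = p * e := by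
    have : ∀ k : ℕ, ∃ p : S, 1 - (1 - e) ^ k = p * e := by
      intro k
      induction k with
      | zero => exact ⟨0, by simp⟩
      | succ k ih =>
        obtain ⟨p, hp⟩ := ih
        refine ⟨(1 - e) ^ k + p, ?_⟩
        have : (1 - e) ^ (k + 1) = (1 - e) ^ k - (1 - e) ^ k * e := by
          rw [pow_succ, mul_sub, mul_one]
        rw [this, add_mul, ← hp]
        abel
    rw [hf]
    exact this (m' + 1)
  have hfJa : ∃ u ∈ J, f = u * a := ⟨p * x, J.mul_mem_left _ hx, by
    rw [hp, he]; simp only [mul_assoc]⟩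
  have hIf : ∀ r ∈ J, r * a * f = r * a := by
    intro r hr
    obtain ⟨t, ht, hta⟩ := hIe (m' + 3) r hr
    have : r * a * (1 - e) ^ (m' + 1) = 0 := by
      rw [hta, mul_assoc, hzero, mul_zero]
    rw [hf, mul_sub, this, mul_one, sub_zero]
  have haf : a * f = a := by
    have h1 : a = (x * a) * a := by rw [mul_assoc]; exact hax
    have h2 := hIf (x * a) (hJ x hx _)
    rw [← h1] at h2
    exact h2
  obtain ⟨u, hu, hfu⟩ := hfJa
  have hff : f * f = f := by
    have h2 := hIf u hu
    rw [← hfu] at h2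
    exact h2
  have hfa : f * a = a := by
    have : (1 - e) ^ (m' + 1) * a = 0 := by
      rw [pow_succ, mul_assoc, sub_mul, one_mul, hea, sub_self, mul_zero]
    rw [hf, sub_mul, this, one_mul, sub_zero]
  obtain ⟨u', hu'⟩ : ∃ u' : S, u' = f * u * f := ⟨_, rfl⟩
  have hu'J : u' ∈ J := by rw [hu']; exact hJ _ (J.mul_mem_left _ hu) _
  have hu'a : u' * a = f := by
    calc u' * a = f * (u * (f * a)) := by rw [hu']; simp only [mul_assoc]
      _ = f * f := by rw [hfa, ← hfu]
      _ = f := hff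
  have hfu' : f * u' = u' := by
    calc f * u' = (f * f) * u * f := by rw [hu']; simp only [mul_assoc]
      _ = u' := by rw [hff, hu']
  have hu'f : u' * f = u' := by
    calc u' * f = f * u * (f * f) := by rw [hu']; simp only [mul_assoc]
      _ = u' := by rw [hff, hu']
  obtain ⟨v, hv⟩ : ∃ v : S, v = a * u' := ⟨_, rfl⟩
  have hvJ : v ∈ J := by rw [hv]; exact hJ a ha _
  have hvv : v * v = v := by
    calc v * v = a * ((u' * a) * u') := by rw [hv]; simp only [mul_assoc]
      _ = v := by rw [hu'a, hfu', hv]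
  have hfv : f * v = v := by rw [hv, ← mul_assoc, hfa]
  have hvf : v * f = v := by rw [hv, mul_assoc, hu'f]
  have hfJ : f ∈ J := by rw [hfu]; exact hJ u hu _
  obtain ⟨w, hw⟩ : ∃ w : S, w = f - v := ⟨_, rfl⟩
  have hwJ : w ∈ J := by rw [hw]; exact J.sub_mem hfJ hvJ
  have hww : w * w = w := by
    rw [hw, sub_mul, mul_sub, mul_sub, hff, hfv, hvf, hvv]
    abel
  have hwf : w * f = w := by rw [hw, sub_mul, hff, hvf]
  have hwa : w * a = 0 := by
    have : v * a = a := by rw [hv, mul_assoc, hu'a, haf]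
    rw [hw, sub_mul, hfa, this, sub_self]
  -- idempotents of `J` are central enough
  have hid : ∀ g ∈ J, g * g = g → ∀ s ∈ J, g * s = g * s * g := by
    intro g hg hgg s hs
    obtain ⟨n, hn, h⟩ := H g hg
    have hgn : g ^ n = g := by
      obtain ⟨k, rfl⟩ : ∃ k, n = k + 1 := ⟨n - 1, by omega⟩
      exact (show IsIdempotentElem g from hgg).pow_succ_eq k
    rw [hgn] at h
    obtain ⟨t, ht, hts⟩ := h g hg s hs
    rw [hgg] at hts
    rw [hts, mul_assoc, hgg]
  have hw0 : w = 0 := by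
    calc w = w * f := hwf.symm
      _ = (w * u') * a := by rw [← hu'a, mul_assoc]
      _ = (w * u' * w) * a := by rw [← hid w hwJ hww u' hu'J]
      _ = w * u' * (w * a) := by rw [mul_assoc]
      _ = 0 := by rw [hwa, mul_zero]
  have hfv' : f = v := sub_eq_zero.mp (hw ▸ hw0)
  refine ⟨u', hu'J, ?_⟩
  calc a = a * f := haf.symm
    _ = a * (a * u') := by rw [hfv', hv]
    _ = a * a * u' := by rw [mul_assoc]

/-- `posPow a n` is the power `a ^ (n + 1)` of an element of a ring possibly without identity. -/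
def posPow {R : Type*} [NonUnitalRing R] (a : R) : ℕ → R
  | 0 => a
  | n + 1 => posPow a n * a

/-- For every `a` there is an exponent `n + 1 ≥ 1` such that the left ideal `R a ^ (n + 1)`
is closed under right multiplication, that is, is a two-sided ideal. -/
def WeaklyLeftDuo (R : Type*) [NonUnitalRing R] : Prop :=
  ∀ a : R, ∃ n : ℕ, ∀ r s : R, ∃ t : R, r * posPow a n * s = t * posPow a n

/-- Every left strongly regular element is right strongly regular (hence strongly regular). -/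
def LeftDischinger (R : Type*) [NonUnitalRing R] : Prop :=
  ∀ a : R, (∃ x : R, a = x * (a * a)) → ∃ y : R, a = (a * a) * y

/-- Every weakly left duo ring, with or without identity, is left Dischinger. -/
theorem result (R : Type*) [NonUnitalRing R] (h : WeaklyLeftDuo R) : LeftDischinger R := by
  rintro a ⟨x, hax⟩
  let J : Ideal (Unitization ℤ R) :=
    { carrier := {z | z.fst = 0}
      add_mem' := by
        intro z w hz hw
        simp only [Set.mem_ofPred_eq, Unitization.fst_add] at *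
        rw [hz, hw, add_zero]
      zero_mem' := by simp
      smul_mem' := by
        intro c z hz
        simp only [Set.mem_ofPred_eq, smul_eq_mul, Unitization.fst_mul] at *
        rw [hz, mul_zero] }
  have hmem : ∀ z : Unitization ℤ R, z ∈ J ↔ z.fst = 0 := fun z => Iff.rfl
  have hex : ∀ z ∈ J, ∃ r : R, z = (r : Unitization ℤ R) := by
    intro z hz
    rw [hmem] at hz
    exact ⟨z.snd, by ext <;> simp [hz]⟩
  have hpow : ∀ (c : R) (n : ℕ), ((posPow c n : R) : Unitization ℤ R) = (c : Unitization ℤ R) ^ (n + 1) := by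
    intro c n
    induction n with
    | zero => simp [posPow]
    | succ n ih => rw [posPow, Unitization.inr_mul, ih, ← pow_succ]
  obtain ⟨y, hy, hay⟩ := core J
    (by
      intro j hj s
      rw [hmem] at *
      rw [Unitization.fst_mul, hj, zero_mul])
    (by
      intro c hc
      obtain ⟨c', rfl⟩ := hex c hc
      obtain ⟨n, hn⟩ := h c'
      refine ⟨n + 1, by omega, ?_⟩
      intro r hr s hs
      obtain ⟨r', rfl⟩ := hex r hr
      obtain ⟨s', rfl⟩ := hex s hs
      obtain ⟨t, ht⟩ := hn r' s'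
      refine ⟨(t : Unitization ℤ R), by rw [hmem]; simp, ?_⟩
      rw [← hpow, ← Unitization.inr_mul, ← Unitization.inr_mul, ht, Unitization.inr_mul])
    (a : Unitization ℤ R) (x : Unitization ℤ R) (by rw [hmem]; simp) (by rw [hmem]; simp)
    (by rw [← Unitization.inr_mul, ← Unitization.inr_mul, ← hax])
  obtain ⟨y', rfl⟩ := hex y hy
  refine ⟨y', ?_⟩
  rw [← Unitization.inr_mul, ← Unitization.inr_mul] at hay
  exact Unitization.inr_injective hay

end Pool.Agent.Results.MP_1cad20_al.LeftDischinger
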